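import Pool.Agent.Helper62.HoveyS.SumSmall
import Pool.Agent.Helper62.HoveyT.Assemble

/-!
# Hovey's statement for coproducts of topologised theories
-/

open CategoryTheory CategoryTheory.Limits CategoryTheory.Pretriangulated

universe v u

namespace Pool.Agent.Helper62.Hovey

variable {T : Type u} [Category.{v} T] [HasZeroObject T] [HasShift T ℤ] [Preadditive T]
  [∀ n : ℤ, (shiftFunctor T n).Additive] [Pretriangulated T] [HasCoproducts.{v} T] [HasProductsOfShape ℕ T]

variable {ι : Type} {c : ι → T} {K : Type v} {E : K → T} {A : K → Type v} [∀ k, Ring (A k)]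
  {ρ : ∀ k, A k →+* End (E k)}

theorem equivalence_iff_of_sum (hc : IsCountableGen.{v} c) (τ : ∀ k, LinTop (ρ k) c)
    (hsl : ∀ k, (τ k).Slender) {X Y : T} (u : X ⟶ Y) :
    IsCohomologyEquivalence (∐ E) u ↔ IsHomologyEquivalence (FT (sumTop hc.compact τ)) u := by
  obtain ⟨Z, p, q, hT⟩ := distinguished_cocone_triangle u
  have key : IsHomologyEquivalence (FT (sumTop hc.compact τ)) u ↔ ∀ n : ℤ, (sumTop hc.compact τ).Small (Z⟦n⟧) := by
    have hhom := FT_homological (sumTop hc.compact τ) hc
    letI : (FT (sumTop hc.compact τ)).ShiftSequence ℤ :=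
      Functor.ShiftSequence.tautological (FT (sumTop hc.compact τ)) ℤ
    have h1 := (FT (sumTop hc.compact τ)).mem_homologicalKernel_trW_iff u
    have h2 := (FT (sumTop hc.compact τ)).homologicalKernel.trW_iff_of_distinguished _ hT
    refine h1.symm.trans (h2.trans ?_)
    change (∀ n : ℤ, IsZero ((FT (sumTop hc.compact τ)).obj (Z⟦n⟧))) ↔ _
    refine forall_congr' fun n => ?_
    rw [isZero_iff_forall, FT_zero_iff (sumTop hc.compact τ) hc]
  refine ((cohomology_iso_iff (∐ E) _ hT).trans (acyclic_shift_iff (∐ E) Z)).trans (Iff.trans ?_ key.symm)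
  exact ⟨fun h => small_of_acyclic_sum hc τ hsl h, fun h => acyclic_of_small (sumTop hc.compact τ) hc h⟩

end Pool.Agent.Helper62.Hovey
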