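import Pool.Agent.Helper62.HoveyS.SumTop
import Pool.Agent.Helper62.HoveyS.Fast
import Pool.Agent.Helper62.HoveyT.MainT
import Pool.Agent.Helper40.InjChoice

/-!
# Acyclic objects of coproducts are small
-/

open CategoryTheory CategoryTheory.Limits CategoryTheory.Pretriangulated

universe v u

namespace Pool.Agent.Helper62.Hovey

variable {T : Type u} [Category.{v} T] [HasZeroObject T] [HasShift T ℤ] [Preadditive T]
  [∀ n : ℤ, (shiftFunctor T n).Additive] [Pretriangulated T] [HasCoproducts.{v} T]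

variable {ι : Type} {c : ι → T} {K : Type v} {E : K → T} {A : K → Type v} [∀ k, Ring (A k)]
  {ρ : ∀ k, A k →+* End (E k)}

/-- the components on which the image of a factorisation is not contained in `U` -/
def badSet {i j : ι} (U : ∀ k, Submodule (A k) (HomMod (ρ k) (c i))) (g : c i ⟶ c j) : Set K :=
  {k | ∃ e : c j ⟶ ∐ E, g ≫ e ≫ prj E k ∉ toHom (U k)}

lemma badSet_comp {i j l : ι} (U : ∀ k, Submodule (A k) (HomMod (ρ k) (c i))) (g : c i ⟶ c j) (u : c j ⟶ c l) :
    badSet U (g ≫ u) ⊆ badSet U g := by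
  rintro k ⟨e, he⟩
  refine ⟨u ≫ e, ?_⟩
  simpa only [Category.assoc] using he

/-- the bad set becomes finite -/
theorem exists_finite_bad [HasProductsOfShape ℕ T] (hc : IsCountableGen.{v} c) {X : T}
    (h0 : ∀ y : X ⟶ ∐ E, y = 0) (h1 : ∀ y : X ⟶ (∐ E)⟦(1 : ℤ)⟧, y = 0) {i : ι}
    (U : ∀ k, Submodule (A k) (HomMod (ρ k) (c i))) (f : c i ⟶ X) :
    ∃ (j : ι) (g : c i ⟶ c j) (h : c j ⟶ X), f = g ≫ h ∧ (badSet U g).Finite := by
  classical
  by_contra hcon
  push Not at hcon
  obtain ⟨R⟩ := exists_redPower.{v} (∐ E)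
  obtain ⟨j, g, h, hgh, hfast⟩ := exists_fast R hc f
  obtain ⟨κ, hκ, hκS⟩ := injective_choice (fun n => badSet U (g n)) (fun n => hcon (j n) (g n) (h n) (hgh n))
  choose e he using hκS
  obtain ⟨y, hy⟩ := hfast e
  obtain ⟨φ, hadd, hsmul, N, hN⟩ := exists_linear (sumAct ρ) R hc h0 h1 f (fun n => g n ≫ e n) y hy
  let a : ℕ → ∀ k, A k := fun n => Pi.single (κ n) 1
  have key : ∀ m ≥ N, φ a ≫ prj E (κ m) = (g m ≫ e m) ≫ prj E (κ m) := by
    intro m hm
    let s : ∀ k, A k := Pi.single (κ m) 1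
    have h2 : s • a = s • (Pi.single m 1 : ℕ → ∀ k, A k) := by
      funext n
      by_cases hn : n = m
      · subst hn
        rw [Pi.smul_apply, Pi.smul_apply, Pi.single_eq_same]
        change s * a n = s * 1
        rw [mul_one]
        funext k
        by_cases hk : k = κ n
        · subst hk
          simp [s, a]
        · simp [s, a, hk]
      · rw [Pi.smul_apply, Pi.smul_apply, Pi.single_eq_of_ne hn, smul_zero]
        change s * a n = 0
        funext k
        by_cases hk : k = κ m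
        · subst hk
          have : κ m ≠ κ n := fun h => hn (hκ h).symm
          simp [s, a, this]
        · simp [s, hk]
    have h3 := hsmul s a
    rw [h2, hsmul, hN m hm] at h3
    have h5 : (ρ (κ m) (s (κ m)) : E (κ m) ⟶ E (κ m)) = 𝟙 _ := by
      simp only [s, Pi.single_eq_same, map_one]
      rfl
    have h6 : ∀ z : c i ⟶ ∐ E, (z ≫ (sumAct ρ s : ∐ E ⟶ ∐ E)) ≫ prj E (κ m) = z ≫ prj E (κ m) := by
      intro z
      rw [Category.assoc, sumAct_π, h5, Category.comp_id]
    rw [← h6 (φ a), ← h6 (g m ≫ e m)]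
    exact congrArg (fun z => z ≫ prj E (κ m)) h3.symm
  have hfin := coord_fin hc.compact (φ a)
  have hinf : (κ '' Set.Ici N).Infinite := (Set.Ici_infinite N).image hκ.injOn
  apply hinf
  apply hfin.subset
  rintro _ ⟨m, hm, rfl⟩ hzero
  apply he m
  rw [← Category.assoc, ← key m hm, hzero]
  exact (U (κ m)).zero_mem

/-- a common factorisation for finitely many components -/
lemma exists_common (hc : IsCountableGen.{v} c) {X : T} {i : ι}
    (U : ∀ k, Submodule (A k) (HomMod (ρ k) (c i))) (f : c i ⟶ X)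
    (Γ : ∀ k, Submodule (A k) (HomMod (ρ k) (c i) ⧸ U k))
    (hfac : ∀ k, ∃ (j : ι) (g : c i ⟶ c j) (h : c j ⟶ X), f = g ≫ h ∧ rg (U k) g ≤ Γ k)
    {j : ι} (g : c i ⟶ c j) (h : c j ⟶ X) (hgh : f = g ≫ h) (s : Finset K) :
    ∃ (l : ι) (u : c j ⟶ c l) (m : c l ⟶ X), u ≫ m = h ∧ ∀ k ∈ s, rg (U k) (g ≫ u) ≤ Γ k := by
  classical
  induction s using Finset.induction_on with
  | empty => exact ⟨j, 𝟙 _, h, Category.id_comp _, fun k hk => absurd hk (Finset.notMem_empty k)⟩
  | insert k s hk ih =>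
    obtain ⟨l, u, m, hu, hs⟩ := ih
    obtain ⟨j', g', h', hw, hg'⟩ := hfac k
    obtain ⟨l', m', t, t', ht, ht', htt⟩ := exists_span hc (g ≫ u) m g' h' (by
      rw [Category.assoc, hu, ← hgh, hw])
    refine ⟨l', u ≫ t, m', by rw [Category.assoc, ht, hu], fun k' hk' => ?_⟩
    rcases Finset.mem_insert.mp hk' with rfl | hk'
    · rw [← Category.assoc, htt]
      exact (rg_comp_le (U k') g' t').trans hg'
    · rw [← Category.assoc]
      exact (rg_comp_le (U k') (g ≫ u) t).trans (hs k' hk')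

/-- artinian modules from finitely many components -/
lemma isArtinian_rg {i j : ι} (U : ∀ k, Submodule (A k) (HomMod (ρ k) (c i)))
    (g : c i ⟶ c j) (s : Finset K) (hs : badSet U g ⊆ s) (Γ : ∀ k, Submodule (A k) (HomMod (ρ k) (c i) ⧸ U k))
    (hΓ : ∀ k ∈ s, IsArtinian (A k) (Γ k)) (hg : ∀ k ∈ s, rg (U k) g ≤ Γ k) :
    IsArtinian (∀ k, A k) (rg (box U) g) := by
  classical
  have hΓ' : ∀ k : s, WellFoundedLT (Submodule (A k) (Γ k)) := fun k => hΓ k k.2
  have hprj : ∀ (a : ∀ k, A k) (x : c i ⟶ ∐ E) (k : K),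
      (x ≫ (sumAct ρ a : ∐ E ⟶ ∐ E)) ≫ prj E k = (x ≫ prj E k) ≫ (ρ k (a k) : E k ⟶ E k) := by
    intro a x k
    rw [Category.assoc, sumAct_π, Category.assoc]
  -- the components of a submodule
  let Φ : Submodule (∀ k, A k) (rg (box U) g) → ∀ k : s, Submodule (A k) (Γ k) := fun N k =>
    { carrier := {γ | ∃ x : c i ⟶ ∐ E, (box U).mkQ x ∈ N.map (rg (box U) g).subtype ∧
        (U k).mkQ (x ≫ prj E k : c i ⟶ E k) = γ.1}
      zero_mem' := ⟨0, by
        rw [show (box U).mkQ (0 : c i ⟶ ∐ E) = 0 from map_zero _]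
        exact Submodule.zero_mem _, by
        rw [zero_comp]
        exact map_zero _⟩
      add_mem' := by
        rintro γ δ ⟨x, hx, hγ⟩ ⟨y, hy, hδ⟩
        refine ⟨x + y, ?_, ?_⟩
        · have := (N.map (rg (box U) g).subtype).add_mem hx hy
          rw [← map_add] at this
          exact this
        · rw [Preadditive.add_comp]
          refine (map_add (U k).mkQ _ _).trans ?_
          rw [hγ, hδ]
          rfl
      smul_mem' := by
        rintro a γ ⟨x, hx, hγ⟩
        refine ⟨x ≫ (sumAct ρ (Pi.single (k : K) a) : ∐ E ⟶ ∐ E), ?_, ?_⟩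
        · have := (N.map (rg (box U) g).subtype).smul_mem (Pi.single (k : K) a) hx
          rw [← map_smul] at this
          exact this
        · rw [hprj, Pi.single_eq_same]
          refine (map_smul (U k).mkQ a (show HomMod (ρ k) (c i) from x ≫ prj E k)).trans ?_
          exact congrArg (fun z => a • z) hγ }
  have hΦ : StrictMono Φ := by
    intro N N₂ hlt
    refine lt_of_le_not_ge ?_ ?_
    · rintro k γ ⟨x, hx, hγ⟩
      exact ⟨x, Submodule.map_mono hlt.le hx, hγ⟩
    · intro hge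
      apply hlt.not_ge
      intro z hz
      obtain ⟨_, ⟨e₀, rfl⟩, hx₀z⟩ := z.2
      let x₀ : c i ⟶ ∐ E := g ≫ (show c j ⟶ ∐ E from e₀)
      have hx₀ : (box U).mkQ x₀ = z.1 := hx₀z
      have hex : ∀ k, ∃ x : c i ⟶ ∐ E, k ∈ s → ((box U).mkQ x ∈ N.map (rg (box U) g).subtype ∧
          x₀ ≫ prj E k - x ≫ prj E k ∈ toHom (U k)) := by
        intro k
        by_cases hk : k ∈ s
        · have h1 : (U k).mkQ (x₀ ≫ prj E k : c i ⟶ E k) ∈ Γ k := by
            apply hg k hk
            refine ⟨_, ⟨(show c j ⟶ ∐ E from e₀) ≫ prj E k, rfl⟩, ?_⟩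
            have : x₀ ≫ prj E k = g ≫ (show c j ⟶ ∐ E from e₀) ≫ prj E k := Category.assoc _ _ _
            rw [this]
            rfl
          have h2 : (⟨_, h1⟩ : Γ k) ∈ Φ N₂ ⟨k, hk⟩ := ⟨x₀, by
            rw [hx₀]
            exact ⟨z, hz, rfl⟩, rfl⟩
          obtain ⟨x, hx, hxe⟩ := hge ⟨k, hk⟩ h2
          refine ⟨x, fun _ => ⟨hx, ?_⟩⟩
          exact (mkQ_eq_iff (U k) (x₀ ≫ prj E k) (x ≫ prj E k)).mp hxe.symm
        · exact ⟨0, fun h => absurd h hk⟩
      choose x hx using hex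
      let w : c i ⟶ ∐ E := ∑ k ∈ s, x k ≫ (sumAct ρ (Pi.single k 1) : ∐ E ⟶ ∐ E)
      have hw1 : (box U).mkQ w ∈ N.map (rg (box U) g).subtype := by
        have h1 : (box U).mkQ w = ∑ k ∈ s, (Pi.single k 1 : ∀ k, A k) • (box U).mkQ (x k) :=
          (map_sum (box U).mkQ (fun k => (x k ≫ (sumAct ρ (Pi.single k 1) : ∐ E ⟶ ∐ E) :
            HomMod (sumAct ρ) (c i))) s)
        rw [h1]
        exact Submodule.sum_mem _ fun k hk => Submodule.smul_mem _ _ (hx k hk).1
      have hw2 : ∀ l, w ≫ prj E l = if l ∈ s then x l ≫ prj E l else 0 := by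
        intro l
        simp only [w]
        rw [Preadditive.sum_comp]
        have h1 : ∀ k ∈ s, (x k ≫ (sumAct ρ (Pi.single k 1) : ∐ E ⟶ ∐ E)) ≫ prj E l =
            if l = k then x l ≫ prj E l else 0 := by
          intro k _
          rw [hprj]
          by_cases hlk : l = k
          · subst hlk
            rw [if_pos rfl, Pi.single_eq_same, map_one]
            exact Category.comp_id _
          · rw [if_neg hlk, Pi.single_eq_of_ne hlk, map_zero]
            exact comp_zero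
        rw [Finset.sum_congr rfl h1, Finset.sum_ite_eq]
      have hw3 : x₀ - w ∈ toHom (box U) := by
        rw [mem_box]
        intro l
        rw [Preadditive.sub_comp, hw2]
        by_cases hl : l ∈ s
        · rw [if_pos hl]
          exact (hx l hl).2
        · rw [if_neg hl, sub_zero]
          by_contra hne
          apply hl
          apply hs
          refine ⟨(show c j ⟶ ∐ E from e₀), ?_⟩
          rw [← Category.assoc]
          exact hne
      have hw4 : (box U).mkQ x₀ = (box U).mkQ w := (mkQ_eq_iff (box U) x₀ w).mpr hw3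
      rw [← hw4, hx₀] at hw1
      obtain ⟨z', hz', hzz⟩ := hw1
      have : z' = z := Subtype.ext hzz
      rw [← this]
      exact hz'
  exact hΦ.wellFoundedLT

/-- acyclic objects of coproducts are small -/
theorem small_of_acyclic_sum [HasProductsOfShape ℕ T] (hc : IsCountableGen.{v} c) (τ : ∀ k, LinTop (ρ k) c)
    (hsl : ∀ k, (τ k).Slender) {X : T} (h : ∀ (n : ℤ) (f : X⟦n⟧ ⟶ ∐ E), f = 0) (n : ℤ) :
    (sumTop hc.compact τ).Small (X⟦n⟧) := by
  have h0 : ∀ y : X⟦n⟧ ⟶ ∐ E, y = 0 := h n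
  have h1 : ∀ y : X⟦n⟧ ⟶ (∐ E)⟦(1 : ℤ)⟧, y = 0 := by
    refine (acyclic_shift_iff (∐ E) (X⟦n⟧)).mpr (fun m f => ?_) 1
    have := h (n + m) ((shiftFunctorAdd T n m).hom.app X ≫ f)
    rw [← cancel_epi ((shiftFunctorAdd T n m).hom.app X), this, comp_zero]
  have h0' : ∀ k (y : X⟦n⟧ ⟶ E k), y = 0 := by
    intro k y
    rw [← Category.comp_id y, ← ι_prj_self k, ← Category.assoc, h0 (y ≫ Sigma.ι E k), zero_comp]
  have h1' : ∀ k (y : X⟦n⟧ ⟶ (E k)⟦(1 : ℤ)⟧), y = 0 := by
    intro k y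
    have h2 : (Sigma.ι E k)⟦(1 : ℤ)⟧' ≫ (prj E k)⟦(1 : ℤ)⟧' = 𝟙 _ := by
      rw [← Functor.map_comp, ι_prj_self, CategoryTheory.Functor.map_id]
    rw [← Category.comp_id y, ← h2, ← Category.assoc, h1 (y ≫ (Sigma.ι E k)⟦(1 : ℤ)⟧'), zero_comp]
  refine small_of_artinian (sumTop hc.compact τ) hc (fun i f V hV => ?_) h0
  obtain ⟨U, hU, rfl⟩ := hV
  choose Γ hΓ hφ using fun k => hsl k i (U k) (hU k)
  obtain ⟨j, g, h, hgh, hfin⟩ := exists_finite_bad hc h0 h1 U f
  obtain ⟨l, u, m, hu, hle⟩ := exists_common hc U f Γ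
    (fun k => exists_facT hc i (U k) (Γ k) (hφ k) (h0' k) (h1' k) f) g h hgh hfin.toFinset
  refine ⟨l, g ≫ u, m, by rw [Category.assoc, hu, hgh], ?_⟩
  exact isArtinian_rg U (g ≫ u) hfin.toFinset (by
    rw [Set.Finite.coe_toFinset]
    exact badSet_comp U g u) Γ (fun k _ => hΓ k) hle

end Pool.Agent.Helper62.Hovey
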