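import Pool.Agent.Helper62.HoveyT.HomologyT

/-!
# Coproducts of objects with topologised cohomology theories
-/

open CategoryTheory CategoryTheory.Limits CategoryTheory.Pretriangulated

universe v u

namespace Pool.Agent.Helper62.Hovey

section ToHom

variable {T : Type u} [Category.{v} T] [Preadditive T] {A : Type*} [Ring A] {E : T} {ρ : A →+* End E}

/-- a submodule of `Hom(X, E)` as a subgroup -/
def toHom {X : T} (U : Submodule A (HomMod ρ X)) : AddSubgroup (X ⟶ E) := U.toAddSubgroup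

lemma mem_toHom {X : T} (U : Submodule A (HomMod ρ X)) (x : X ⟶ E) : x ∈ toHom U ↔ (x : HomMod ρ X) ∈ U := Iff.rfl

lemma mkQ_eq_iff {X : T} (U : Submodule A (HomMod ρ X)) (x y : HomMod ρ X) :
    U.mkQ x = U.mkQ y ↔ (show X ⟶ E from x) - (show X ⟶ E from y) ∈ toHom U := Submodule.Quotient.eq U

end ToHom

variable {T : Type u} [Category.{v} T] [HasZeroObject T] [HasShift T ℤ] [Preadditive T]
  [∀ n : ℤ, (shiftFunctor T n).Additive] [Pretriangulated T] [HasCoproducts.{v} T]

variable {ι : Type} {c : ι → T} {K : Type v} {E : K → T}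

section Coord

omit [HasZeroObject T] [HasShift T ℤ] [∀ n : ℤ, (shiftFunctor T n).Additive] [Pretriangulated T]

variable (E) in
/-- the projections of a coproduct -/
noncomputable def prj (k : K) : ∐ E ⟶ E k := by
  classical
  exact Sigma.π E k

lemma ι_prj_self (k : K) : Sigma.ι E k ≫ prj E k = 𝟙 (E k) := by
  classical
  exact Sigma.ι_π_eq_id E k

lemma ι_prj_ne {k l : K} (h : k ≠ l) : Sigma.ι E k ≫ prj E l = 0 := by
  classical
  exact Sigma.ι_π_of_ne E h

/-- finite sums of components -/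
noncomputable def fsum {C : T} (s : Finset K) (x : ∀ k, C ⟶ E k) : C ⟶ ∐ E := ∑ k ∈ s, x k ≫ Sigma.ι E k

lemma fsum_π {C : T} (s : Finset K) (x : ∀ k, C ⟶ E k) (k : K) (hk : k ∈ s) : fsum s x ≫ prj E k = x k := by
  classical
  rw [fsum, Preadditive.sum_comp, Finset.sum_eq_single k]
  · rw [Category.assoc, ι_prj_self, Category.comp_id]
  · intro l _ hl
    rw [Category.assoc, ι_prj_ne hl, comp_zero]
  · intro h
    exact absurd hk h

lemma fsum_π_not {C : T} (s : Finset K) (x : ∀ k, C ⟶ E k) (k : K) (hk : k ∉ s) : fsum s x ≫ prj E k = 0 := by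
  classical
  rw [fsum, Preadditive.sum_comp]
  refine Finset.sum_eq_zero fun l hl => ?_
  rw [Category.assoc, ι_prj_ne, comp_zero]
  rintro rfl
  exact hk hl

lemma exists_fsum (hc : ∀ i, IsCompactObj.{v} (c i)) {i : ι} (x : c i ⟶ ∐ E) :
    ∃ s : Finset K, x = fsum s (fun k => x ≫ prj E k) := by
  classical
  obtain ⟨s, g, hg⟩ := hc i E x
  have hx : x = fsum s g := hg
  refine ⟨s, ?_⟩
  conv_lhs => rw [hx]
  unfold fsum
  refine Finset.sum_congr rfl fun k hk => ?_
  beta_reduce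
  rw [hx, fsum_π s g k hk]

lemma coord_fin (hc : ∀ i, IsCompactObj.{v} (c i)) {i : ι} (x : c i ⟶ ∐ E) :
    {k : K | x ≫ prj E k ≠ 0}.Finite := by
  obtain ⟨s, hs⟩ := exists_fsum hc x
  refine s.finite_toSet.subset fun k hk => ?_
  by_contra hks
  apply hk
  rw [hs]
  exact fsum_π_not s _ k hks

lemma coord_ext (hc : ∀ i, IsCompactObj.{v} (c i)) {i : ι} {x y : c i ⟶ ∐ E}
    (h : ∀ k, x ≫ prj E k = y ≫ prj E k) : x = y := by
  rw [← sub_eq_zero]
  obtain ⟨s, hs⟩ := exists_fsum hc (x - y)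
  rw [hs]
  refine Finset.sum_eq_zero fun k _ => ?_
  beta_reduce
  rw [Preadditive.sub_comp, h k, sub_self, zero_comp]

/-- an element with given coordinates -/
lemma exists_coord {C : T} (x : ∀ k, C ⟶ E k) (hx : {k | x k ≠ 0}.Finite) :
    ∃ y : C ⟶ ∐ E, ∀ k, y ≫ prj E k = x k := by
  classical
  refine ⟨fsum hx.toFinset x, fun k => ?_⟩
  by_cases h : k ∈ hx.toFinset
  · exact fsum_π _ _ k h
  · rw [fsum_π_not _ _ k h]
    by_contra hne
    exact h (hx.mem_toFinset.mpr (fun h0 => hne h0.symm))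

end Coord

variable {A : K → Type v} [∀ k, Ring (A k)] (ρ : ∀ k, A k →+* End (E k))

/-- the componentwise action on the coproduct -/
noncomputable def sumAct : (∀ k, A k) →+* End (∐ E) where
  toFun a := Sigma.desc fun k => (ρ k (a k) : E k ⟶ E k) ≫ Sigma.ι E k
  map_one' := by
    apply Sigma.hom_ext
    intro k
    rw [Sigma.ι_desc, Pi.one_apply, map_one]
    exact (Category.id_comp _).trans (Category.comp_id _).symm
  map_mul' a b := by
    apply Sigma.hom_ext
    intro k
    rw [Sigma.ι_desc, Pi.mul_apply, map_mul]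
    change ((ρ k (b k) : E k ⟶ E k) ≫ (ρ k (a k) : E k ⟶ E k)) ≫ Sigma.ι E k = Sigma.ι E k ≫
      Sigma.desc (fun k => (ρ k (b k) : E k ⟶ E k) ≫ Sigma.ι E k) ≫
      Sigma.desc (fun k => (ρ k (a k) : E k ⟶ E k) ≫ Sigma.ι E k)
    rw [Sigma.ι_desc_assoc, Category.assoc, Category.assoc, Sigma.ι_desc]
  map_zero' := by
    apply Sigma.hom_ext
    intro k
    rw [Sigma.ι_desc, Pi.zero_apply, map_zero]
    exact zero_comp.trans comp_zero.symm
  map_add' a b := by
    apply Sigma.hom_ext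
    intro k
    rw [Sigma.ι_desc, Pi.add_apply, map_add]
    refine (Preadditive.add_comp _ _ _ _ _ _).trans ?_
    refine Eq.trans ?_ (Preadditive.comp_add _ _ _ _ _ _).symm
    rw [Sigma.ι_desc, Sigma.ι_desc]

lemma ι_sumAct (a : ∀ k, A k) (k : K) :
    Sigma.ι E k ≫ (sumAct ρ a : ∐ E ⟶ ∐ E) = (ρ k (a k) : E k ⟶ E k) ≫ Sigma.ι E k := Sigma.ι_desc _ _

lemma sumAct_π (a : ∀ k, A k) (k : K) :
    (sumAct ρ a : ∐ E ⟶ ∐ E) ≫ prj E k = prj E k ≫ (ρ k (a k) : E k ⟶ E k) := by
  apply Sigma.hom_ext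
  intro l
  rw [← Category.assoc, ι_sumAct, Category.assoc, ← Category.assoc (Sigma.ι E l)]
  by_cases h : l = k
  · subst h
    rw [ι_prj_self]
    exact (Category.comp_id _).trans (Category.id_comp _).symm
  · rw [ι_prj_ne h, comp_zero, zero_comp]

variable {ρ}

/-- the box of a family of submodules -/
def box {i : ι} (U : ∀ k, Submodule (A k) (HomMod (ρ k) (c i))) : Submodule (∀ k, A k) (HomMod (sumAct ρ) (c i)) where
  carrier := {x | ∀ k, ((show c i ⟶ ∐ E from x) ≫ prj E k : c i ⟶ E k) ∈ toHom (U k)}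
  zero_mem' k := by
    change ((0 : c i ⟶ ∐ E) ≫ prj E k : c i ⟶ E k) ∈ toHom (U k)
    rw [zero_comp]
    exact (U k).zero_mem
  add_mem' {x y} hx hy k := by
    change ((show c i ⟶ ∐ E from x) + (show c i ⟶ ∐ E from y)) ≫ prj E k ∈ toHom (U k)
    rw [Preadditive.add_comp]
    exact (U k).add_mem (hx k) (hy k)
  smul_mem' a x hx k := by
    change ((show c i ⟶ ∐ E from x) ≫ (sumAct ρ a : ∐ E ⟶ ∐ E)) ≫ prj E k ∈ toHom (U k)
    rw [Category.assoc, sumAct_π, ← Category.assoc]
    exact (U k).smul_mem (a k) (hx k)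

lemma mem_box {i : ι} (U : ∀ k, Submodule (A k) (HomMod (ρ k) (c i))) (x : c i ⟶ ∐ E) :
    x ∈ toHom (box U) ↔ ∀ k, x ≫ prj E k ∈ toHom (U k) := Iff.rfl

lemma box_mono {i : ι} {U V : ∀ k, Submodule (A k) (HomMod (ρ k) (c i))} (h : ∀ k, U k ≤ V k) : box U ≤ box V :=
  fun _ hx k => h k (hx k)

/-- completeness of the box topology -/
lemma box_complete (hc : ∀ i, IsCompactObj.{v} (c i)) (τ : ∀ k, LinTop (ρ k) c) (i : ι)
    (m : Submodule (∀ k, A k) (HomMod (sumAct ρ) (c i)) → (c i ⟶ ∐ E))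
    (hm : ∀ (U V : ∀ k, Submodule (A k) (HomMod (ρ k) (c i))), (∀ k, U k ∈ (τ k).opens i) →
      (∀ k, V k ∈ (τ k).opens i) → (∀ k, V k ≤ U k) → m (box V) - m (box U) ∈ toHom (box U)) :
    ∃ y : c i ⟶ ∐ E, ∀ (U : ∀ k, Submodule (A k) (HomMod (ρ k) (c i))), (∀ k, U k ∈ (τ k).opens i) →
      y - m (box U) ∈ toHom (box U) := by
  classical
  choose U₀ hU₀ using fun k => (τ k).nonempty i
  have hup : ∀ (k : K) (W : Submodule (A k) (HomMod (ρ k) (c i))), W ∈ (τ k).opens i →
      ∀ l, Function.update U₀ k W l ∈ (τ l).opens i := by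
    intro k W hW l
    by_cases h : l = k
    · subst h
      rw [Function.update_self]
      exact hW
    · rw [Function.update_of_ne h]
      exact hU₀ l
  have hm' : ∀ (U V : ∀ k, Submodule (A k) (HomMod (ρ k) (c i))), (∀ k, U k ∈ (τ k).opens i) →
      (∀ k, V k ∈ (τ k).opens i) → (∀ k, V k ≤ U k) → ∀ k,
      m (box V) ≫ prj E k - m (box U) ≫ prj E k ∈ toHom (U k) := by
    intro U V hU hV hle k
    have := hm U V hU hV hle k
    change (m (box V) - m (box U)) ≫ prj E k ∈ toHom (U k) at this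
    rwa [Preadditive.sub_comp] at this
  have hmm : ∀ (U V : ∀ k, Submodule (A k) (HomMod (ρ k) (c i))), (∀ k, U k ∈ (τ k).opens i) →
      (∀ k, V k ∈ (τ k).opens i) → ∀ k, V k ≤ U k →
      m (box V) ≫ prj E k - m (box U) ≫ prj E k ∈ toHom (U k) := by
    intro U V hU hV k hle
    choose W hW h1 h2 using fun k => (τ k).dir i (U k) (hU k) (V k) (hV k)
    have h3 := hm' U W hU hW h1 k
    have h4 : m (box W) ≫ prj E k - m (box V) ≫ prj E k ∈ toHom (U k) := hle (hm' V W hV hW h2 k)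
    have h5 := (toHom (U k)).sub_mem h3 h4
    rwa [sub_sub_sub_cancel_left] at h5
  have hex : ∀ k, ∃ x : c i ⟶ E k, ∀ W ∈ (τ k).opens i, x - m (box (Function.update U₀ k W)) ≫ prj E k ∈ toHom W := by
    intro k
    exact (τ k).complete i (fun W => m (box (Function.update U₀ k W)) ≫ prj E k) (by
      intro U hU V hV hle
      have h1 := hmm (Function.update U₀ k U) (Function.update U₀ k V) (hup k U hU) (hup k V hV) k (by
        rw [Function.update_self, Function.update_self]; exact hle)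
      rw [Function.update_self] at h1
      exact h1)
  choose x hx using hex
  have hx' : ∀ (U : ∀ k, Submodule (A k) (HomMod (ρ k) (c i))), (∀ k, U k ∈ (τ k).opens i) → ∀ k,
      x k - m (box U) ≫ prj E k ∈ toHom (U k) := by
    intro U hU k
    have h1 := hx k (U k) (hU k)
    have h2 := hmm U (Function.update U₀ k (U k)) hU (hup k (U k) (hU k)) k (by
      rw [Function.update_self])
    have h3 := (toHom (U k)).add_mem h1 h2
    rwa [sub_add_sub_cancel] at h3
  have hfin : {k | x k ≠ 0}.Finite := by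
    by_contra hinf
    have hV : ∀ k, ∃ V ∈ (τ k).opens i, x k ≠ 0 → x k ∉ toHom V := by
      intro k
      by_cases h0 : x k = 0
      · exact ⟨U₀ k, hU₀ k, fun h => absurd h0 h⟩
      · by_contra hcon
        push Not at hcon
        exact h0 ((τ k).hausdorff i (x k) fun U hU => (hcon U hU).2)
    choose V hV hxV using hV
    have hfin := coord_fin hc (m (box V))
    obtain ⟨k, hk, hk'⟩ := (Set.Infinite.sdiff hinf hfin).nonempty
    apply hxV k hk
    have h1 := hx' V hV k
    have h2 : m (box V) ≫ prj E k = 0 := by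
      by_contra h
      exact hk' h
    rwa [h2, sub_zero] at h1
  obtain ⟨y, hy⟩ := exists_coord x hfin
  refine ⟨y, fun U hU => ?_⟩
  rw [mem_box]
  intro k
  rw [Preadditive.sub_comp, hy k]
  exact hx' U hU k

/-- the box topologies -/
noncomputable def sumTop (hc : ∀ i, IsCompactObj.{v} (c i)) (τ : ∀ k, LinTop (ρ k) c) : LinTop (sumAct ρ) c where
  opens i := {V | ∃ U : ∀ k, Submodule (A k) (HomMod (ρ k) (c i)), (∀ k, U k ∈ (τ k).opens i) ∧ V = box U}
  nonempty i := by
    choose U hU using fun k => (τ k).nonempty i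
    exact ⟨_, U, hU, rfl⟩
  dir i := by
    rintro _ ⟨U, hU, rfl⟩ _ ⟨V, hV, rfl⟩
    choose W hW h1 h2 using fun k => (τ k).dir i (U k) (hU k) (V k) (hV k)
    exact ⟨_, ⟨W, hW, rfl⟩, box_mono h1, box_mono h2⟩
  cont {i j} f := by
    rintro _ ⟨U, hU, rfl⟩
    choose V hV h using fun k => (τ k).cont f (U k) (hU k)
    refine ⟨_, ⟨V, hV, rfl⟩, fun x hx k => ?_⟩
    have h1 := h k (hx k)
    change (f ≫ (show c j ⟶ ∐ E from x)) ≫ prj E k ∈ toHom (U k)
    rw [Category.assoc]
    exact h1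
  strict {i j} f := by
    classical
    rintro _ ⟨V, hV, rfl⟩
    choose U hU h using fun k => (τ k).strict f (V k) (hV k)
    refine ⟨_, ⟨U, hU, rfl⟩, ?_⟩
    rintro _ ⟨hx, ⟨e, rfl⟩⟩
    let e' : c j ⟶ ∐ E := e
    have h1 : ∀ k, ∃ w : c j ⟶ E k, w ∈ toHom (V k) ∧ f ≫ w = f ≫ e' ≫ prj E k ∧ (e' ≫ prj E k = 0 → w = 0) := by
      intro k
      by_cases h0 : e' ≫ prj E k = 0
      · exact ⟨0, (V k).zero_mem, by rw [h0], fun _ => rfl⟩
      · have h2 : pre (ρ k) f (e' ≫ prj E k) ∈ U k ⊓ LinearMap.range (pre (ρ k) f) := by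
          refine ⟨?_, ⟨_, rfl⟩⟩
          have := hx k
          change (f ≫ e') ≫ prj E k ∈ toHom (U k) at this
          rw [Category.assoc] at this
          exact this
        obtain ⟨w, hw, hwe⟩ := h k h2
        exact ⟨w, hw, hwe, fun h => absurd h h0⟩
    choose w hw hwe hw0 using h1
    obtain ⟨y, hy⟩ := exists_coord w ((coord_fin hc e').subset fun k hk h0 => hk (hw0 k h0))
    refine ⟨y, fun k => ?_, ?_⟩
    · change y ≫ prj E k ∈ toHom (V k)
      rw [hy k]
      exact hw k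
    · change f ≫ y = f ≫ e'
      apply coord_ext hc
      intro k
      rw [Category.assoc, Category.assoc, hy k, hwe k]
  complete i m hm := by
    obtain ⟨y, hy⟩ := box_complete hc τ i m (fun U V hU hV hle =>
      hm (box U) ⟨U, hU, rfl⟩ (box V) ⟨V, hV, rfl⟩ (box_mono hle))
    refine ⟨y, ?_⟩
    rintro _ ⟨U, hU, rfl⟩
    exact hy U hU
  hausdorff i x hx := by
    classical
    choose U₀ hU₀ using fun k => (τ k).nonempty i
    apply coord_ext hc (x := (x : c i ⟶ ∐ E)) (y := 0)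
    intro k
    rw [zero_comp]
    apply (τ k).hausdorff i
    intro W hW
    have h1 := hx (box (Function.update U₀ k W)) ⟨_, fun l => by
      by_cases h : l = k
      · subst h
        rw [Function.update_self]
        exact hW
      · rw [Function.update_of_ne h]
        exact hU₀ l, rfl⟩ k
    rw [Function.update_self] at h1
    exact h1

end Pool.Agent.Helper62.Hovey
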